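import Pool.Agent.Y709.Trf
import Mathlib.RingTheory.PowerSeries.Trunc
import Mathlib.Analysis.Complex.Polynomial.Basic

/-!
The Euler products of the conjugate characters.
-/

set_option autoImplicit false
set_option linter.unusedSectionVars false

open Polynomial

namespace Pool.Agent.K4H5.KD

open Pool.Agent.W343.BSD Pool.Agent.Y709

/-- **the orders of vanishing for the conjugate characters are equal** -/
theorem conj_mult {k : Type} [Field k] [Fintype k] {n : ℕ} (hn0 : 0 < n) (χ χ' : MulChar k ℂ)
    (hχ : orderOf χ = n) (hχ' : orderOf χ' = n) {ι : Type} (d : ι → ℕ)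
    (hfin : ∀ n, {i | d i ≤ n}.Finite) (a : ι → k) (q : ℕ) (H : ℂ[X])
    (hH : eulerProd d (fun i => 1 - PowerSeries.C (χ (a i)) * PowerSeries.X ^ d i) =
      (H : PowerSeries ℂ)) :
    ∃ H' : ℂ[X], eulerProd d (fun i => 1 - PowerSeries.C (χ' (a i)) * PowerSeries.X ^ d i) =
      (H' : PowerSeries ℂ) ∧ H'.rootMultiplicity (q : ℂ)⁻¹ = H.rootMultiplicity (q : ℂ)⁻¹ := by
  classical
  obtain ⟨g, hg⟩ := IsCyclic.exists_generator (α := kˣ)
  have h1 := prim_of_order χ hn0 hχ hg
  have h2 := prim_of_order χ' hn0 hχ' hg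
  set i := evR hn0 h1 with hi
  set j := evR hn0 h2 with hj
  have hex : ∀ u : k, ∃ r : CR n, i r = χ u ∧ j r = χ' u := by
    intro u
    by_cases hu : u = 0
    · refine ⟨0, ?_, ?_⟩
      · rw [map_zero, hu, MulChar.map_zero]
      · rw [map_zero, hu, MulChar.map_zero]
    · obtain ⟨m, hm⟩ := (mem_powers_iff_mem_zpowers).2 (hg (Units.mk0 u hu))
      dsimp only at hm
      have hm' : u = (g : k) ^ m := by
        rw [← Units.val_pow_eq_pow_val, hm, Units.val_mk0]
      refine ⟨(AdjoinRoot.root _) ^ m, ?_, ?_⟩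
      · rw [hi, map_pow, evR_root, hm', map_pow]
      · rw [hj, map_pow, evR_root, hm', map_pow]
  choose c hc1 hc2 using hex
  set E := eulerProd d (fun s => (1 - PowerSeries.C (c (a s)) * PowerSeries.X ^ d s :
    PowerSeries (CR n))) with hE
  have hEi : PowerSeries.map i E =
      eulerProd d (fun s => 1 - PowerSeries.C (χ (a s)) * PowerSeries.X ^ d s) := by
    rw [hE, map_eulerProd hfin]
    congr 1
    funext s
    rw [map_sub, map_one, map_mul, map_pow, PowerSeries.map_X, PowerSeries.map_C, hc1]
  have hEj : PowerSeries.map j E =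
      eulerProd d (fun s => 1 - PowerSeries.C (χ' (a s)) * PowerSeries.X ^ d s) := by
    rw [hE, map_eulerProd hfin]
    congr 1
    funext s
    rw [map_sub, map_one, map_mul, map_pow, PowerSeries.map_X, PowerSeries.map_C, hc2]
  rw [hH] at hEi
  have hE0 : ∀ m, H.natDegree < m → PowerSeries.coeff m E = 0 := by
    intro m hm
    apply evR_inj hn0 h1
    have h3 := congrArg (PowerSeries.coeff m) hEi
    rw [PowerSeries.coeff_map, Polynomial.coeff_coe, coeff_eq_zero_of_natDegree_lt hm] at h3
    rw [map_zero]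
    exact h3
  set U : (CR n)[X] := PowerSeries.trunc (H.natDegree + 1) E with hU
  have hUE : (U : PowerSeries (CR n)) = E := by
    ext m
    rw [Polynomial.coeff_coe, PowerSeries.coeff_trunc]
    split_ifs with h
    · rfl
    · rw [hE0 m (by omega)]
  have hUi : U.map i = H := by
    apply Polynomial.coe_injective
    rw [Polynomial.polynomial_map_coe, hUE, hEi]
  have hdom : IsDomain (CR n) := (evR_inj hn0 h1).isDomain i
  have key : ∀ f : CR n →+* ℂ, Function.Injective f →
      (U.map f).rootMultiplicity (q : ℂ)⁻¹ =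
        (U.map (algebraMap (CR n) (FractionRing (CR n)))).rootMultiplicity
          ((q : FractionRing (CR n))⁻¹) := by
    intro f hf
    set fL : FractionRing (CR n) →+* ℂ := IsFractionRing.lift hf with hfL
    have h3 : U.map f = (U.map (algebraMap (CR n) (FractionRing (CR n)))).map fL := by
      rw [Polynomial.map_map]
      congr 1
      refine RingHom.ext fun x => ?_
      exact (IsFractionRing.lift_algebraMap hf x).symm
    have h4 : (q : ℂ)⁻¹ = fL ((q : FractionRing (CR n))⁻¹) := by
      rw [map_inv₀, map_natCast]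
    rw [h3, h4, ← Polynomial.eq_rootMultiplicity_map fL.injective]
  refine ⟨U.map j, ?_, ?_⟩
  · rw [← hEj, ← hUE, Polynomial.polynomial_map_coe]
  · rw [key j (evR_inj hn0 h2), ← key i (evR_inj hn0 h1), hUi]

end Pool.Agent.K4H5.KD
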