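import Pool.Agent.K4H5.BC.Bound
import Mathlib.NumberTheory.RamificationInertia.Galois

/-!
The exact formula for the reduction of the Euler product over a covering.
-/

set_option autoImplicit false
set_option linter.unusedSectionVars false

open Polynomial Module

namespace Pool.Agent.K4H5.KD

open Pool.Agent.W313.Hyp Pool.Agent.W343.BSD Pool.Agent.Y709 Pool.Agent.Y709.Gen
  Pool.Agent.Y709.Lay Pool.Agent.K4H5.BC

section defect

variable {k : Type} [Field k] [Fintype k] {O : Type} [CommRing O] [Algebra k[X] O]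
  (G : Type) [Group G] [Finite G] [MulSemiringAction G O] [IsGaloisGroup G k[X] O]

include G in
theorem inertiaDeg_above [FaithfulSMul k[X] O] {P : MI k} {𝔪 𝔫 : MaximalSpectrum O}
    (h : 𝔪 ∈ above k P) (h' : 𝔫 ∈ above k P) :
    𝔪.asIdeal.inertiaDeg k[X] = 𝔫.asIdeal.inertiaDeg k[X] := by
  have h1 := (mem_above G).1 h
  have h2 := (mem_above G).1 h'
  have i1 : 𝔪.asIdeal.LiesOver (Ideal.span {P.1}) := ⟨h1.symm⟩
  have i2 : 𝔫.asIdeal.LiesOver (Ideal.span {P.1}) := ⟨h2.symm⟩
  have i3 := 𝔪.isMaximal.isPrime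
  have i4 := 𝔫.isMaximal.isPrime
  exact Ideal.inertiaDeg_eq_of_isGaloisGroup (Ideal.span {P.1}) 𝔪.asIdeal 𝔫.asIdeal G

/-- the number of the missing sheets in terms of the ramification index -/
theorem defect_eq [FaithfulSMul k[X] O] {P : MI k} {𝔪 : MaximalSpectrum O} (h : 𝔪 ∈ above k P) :
    defect O G P = Nat.card G - Nat.card G / Nat.card (𝔪.asIdeal.inertia G) := by
  unfold defect
  congr 1
  have h1 : ∀ 𝔫 ∈ (above_finite (O := O) G P).toFinset, 𝔫.asIdeal.inertiaDeg k[X] =
      𝔪.asIdeal.inertiaDeg k[X] := by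
    intro 𝔫 h𝔫
    rw [Set.Finite.mem_toFinset] at h𝔫
    exact inertiaDeg_above G h𝔫 h
  rw [Finset.sum_congr rfl h1, Finset.sum_const, smul_eq_mul,
    ← Set.ncard_eq_toFinset_card _ (above_finite (O := O) G P), ← inertia_mul G h]
  have h2 : 0 < Nat.card (𝔪.asIdeal.inertia G) := Nat.card_pos
  rw [mul_right_comm, Nat.mul_div_cancel _ h2]

theorem defect_pos [FaithfulSMul k[X] O] {P : MI k} {𝔪 : MaximalSpectrum O} (h : 𝔪 ∈ above k P)
    (hI : 𝔪.asIdeal.inertia G ≠ ⊥) : 0 < defect O G P := by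
  rw [defect_eq G h]
  have h1 : 1 < Nat.card (𝔪.asIdeal.inertia G) := by
    rw [Subgroup.one_lt_card_iff_ne_bot]
    exact hI
  have h2 : 0 < Nat.card G := Nat.card_pos
  have h3 := Nat.div_lt_self h2 h1
  omega

end defect

section form

variable {k R K : Type} [Field k] [Fintype k]
  [CommRing R] [IsDomain R] [CharZero R] [Field K] [Algebra k K] [IsAlgClosed K]
  [Algebra.IsAlgebraic k K] {p F₀ a : ℕ} [hp : Fact p.Prime] [CharP k p] [CharP K p]
  (S : Sys p R K)
  (hF₀ : 0 < F₀) (hk : Fintype.card k = p ^ F₀) {m : ℕ → ℕ}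
    (hm : ∀ i, m (i + F₀) = m i) (har : ∀ i, a * rot p F₀ m i < p ^ F₀ - 1) (ha : 2 ≤ a)
    (hM0 : 0 < rot p F₀ m 0) (χ : MulChar k R)
    (hχ : ∀ u, χ u = S.w (algebraMap k K) u ^ rot p F₀ m 0)

/-- the Euler product over the closed points of the plane above a closed point of the line -/
noncomputable def LP (χ : MulChar k R) (f : k[X][X]) (P : MI k) : PowerSeries R :=
  haveI : Fact (Irreducible P.1) := ⟨P.2.2⟩
  PowerSeries.expand P.1.natDegree (deg_ne P) (fibG R χ (f.map (AdjoinRoot.mk P.1)))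

theorem inv_series {A : Type} [CommRing A] {L : PowerSeries A}
    (hL : PowerSeries.constantCoeff L = 1) :
    L * PowerSeries.invOfUnit L 1 = 1 := PowerSeries.mul_invOfUnit L 1 (by rw [hL]; rfl)

include hF₀ hk hm har ha hM0 hχ in
/-- the local factor and its reduction -/
theorem local_kd (f : k[X][X]) (hf : f.natDegree ≤ a) (ρ : MI k → K)
    (hρ : ∀ P : MI k, aeval (ρ P) P.1 = 0) (P : MI k) :
    ∃ N : PowerSeries R, PowerSeries.constantCoeff N = 1 ∧
      LP χ f P = PowerSeries.rescale ((p : R) ^ F₀) N ∧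
      PowerSeries.map S.π N *
        (dl p F₀ (GM K p (fun b : Fin (a + 1) => f.coeff b) m) ρ P : PowerSeries K) =
        (dl p F₀ (G1 K p (f.coeff 0) m) ρ P : PowerSeries K) := by
  classical
  have hirr : Fact (Irreducible P.1) := ⟨P.2.2⟩
  have hfd : FiniteDimensional k (AdjoinRoot P.1) := P.2.1.finite_adjoinRoot
  have hfin : Finite (AdjoinRoot P.1) := Module.finite_of_finite k
  let σ : AdjoinRoot P.1 →ₐ[k] K := AdjoinRoot.liftAlgHom P.1 (Algebra.ofId k K) (ρ P) (by
    have := hρ P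
    rw [aeval_def] at this
    exact this)
  have hσ : ∀ g : k[X], σ (AdjoinRoot.mk P.1 g) = aeval (ρ P) g := by
    intro g
    show AdjoinRoot.liftAlgHom P.1 (Algebra.ofId k K) (ρ P) _ (AdjoinRoot.mk P.1 g) = _
    rw [AdjoinRoot.liftAlgHom_mk, aeval_def]
    rfl
  have hfr : finrank k (AdjoinRoot P.1) = P.1.natDegree := by
    have h2 := (AdjoinRoot.powerBasis P.2.1.ne_zero).finrank
    rw [AdjoinRoot.powerBasis_dim] at h2
    exact h2
  obtain ⟨h1, D, hD0, hD1, hD2, -⟩ := S.fibreK hF₀ hk hm har ha hM0 χ hχ σ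
    (fun b : Fin (a + 1) => AdjoinRoot.mk P.1 (f.coeff b))
  rw [hfr] at h1 hD1 hD2
  simp only [hσ] at h1 hD2
  rw [show ((0 : Fin (a + 1)) : ℕ) = 0 from rfl] at h1 hD1
  set c : R := χ (Algebra.norm k (AdjoinRoot.mk P.1 (f.coeff 0))) with hc
  set E : R[X] := 1 - C c * X with hE
  have hE0 : E.coeff 0 = 1 := by
    rw [hE]
    simp
  have hEπ : (E.map S.π) = (locS (MonoidHom.id K) p (G1 K p (f.coeff 0) m) (ρ P)
      (P.1.natDegree * F₀)).charpolyRev := by
    rw [locS_G1, charpolyRev_one', ← h1, hE]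
    simp only [Polynomial.map_sub, Polynomial.map_one, Polynomial.map_mul, map_C, map_X]
  have hDc : PowerSeries.constantCoeff (D : PowerSeries R) = 1 := by
    rw [← PowerSeries.coeff_zero_eq_constantCoeff_apply, Polynomial.coeff_coe, hD0]
  have hEc : PowerSeries.constantCoeff (E : PowerSeries R) = 1 := by
    rw [← PowerSeries.coeff_zero_eq_constantCoeff_apply, Polynomial.coeff_coe, hE0]
  have hDi := inv_series hDc
  have hic : PowerSeries.constantCoeff (PowerSeries.invOfUnit (D : PowerSeries R) 1) = 1 := by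
    have h2 := congrArg PowerSeries.constantCoeff hDi
    rwa [map_mul, hDc, one_mul, map_one] at h2
  set Q : R := ((p : R) ^ F₀) ^ P.1.natDegree with hQ
  have hfE : fibG R χ (f.map (AdjoinRoot.mk P.1)) * PowerSeries.rescale Q (D : PowerSeries R) =
      PowerSeries.rescale Q (E : PowerSeries R) := by
    rw [map_eq_fpol _ hf]
    refine hD1.trans ?_
    rw [hE]
    simp only [Polynomial.coe_sub, Polynomial.coe_one, Polynomial.coe_mul, Polynomial.coe_C,
      Polynomial.coe_X, map_sub, map_one, map_mul, PowerSeries.rescale_X]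
    have h8 : PowerSeries.rescale Q (PowerSeries.C c) = PowerSeries.C c := by
      ext n
      rw [PowerSeries.coeff_rescale, PowerSeries.coeff_C]
      split_ifs with h
      · rw [h, pow_zero, one_mul]
      · rw [mul_zero]
    rw [h8]
    ring
  have hfib : fibG R χ (f.map (AdjoinRoot.mk P.1)) = PowerSeries.rescale Q
      ((E : PowerSeries R) * PowerSeries.invOfUnit (D : PowerSeries R) 1) := by
    have h2 := congrArg (PowerSeries.rescale Q) hDi
    rw [map_mul, map_one] at h2
    rw [map_mul, ← hfE, mul_assoc, h2, mul_one]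
  refine ⟨PowerSeries.expand P.1.natDegree (deg_ne P)
    ((E : PowerSeries R) * PowerSeries.invOfUnit (D : PowerSeries R) 1), ?_, ?_, ?_⟩
  · have h2 := expand_mod (deg_ne P) (f := (E : PowerSeries R) *
      PowerSeries.invOfUnit (D : PowerSeries R) 1) (by rw [map_mul, hEc, hic, one_mul])
    have h3 := (PowerSeries.X_dvd_iff.1 ((dvd_pow_self _ (deg_ne P)).trans h2))
    rw [map_sub, map_one] at h3
    exact sub_eq_zero.1 h3
  · unfold LP
    rw [rescale_expand, ← hfib]
  · have h4 : ((dl p F₀ (GM K p (fun b : Fin (a + 1) => f.coeff b) m) ρ P : K[X]) :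
        PowerSeries K) = PowerSeries.expand P.1.natDegree (deg_ne P)
          ((D.map S.π : K[X]) : PowerSeries K) := by
      unfold Pool.Agent.K4H5.BC.dl
      rw [coe_expand _ (deg_ne P), locS_GM, hD2]
    have h5 : ((dl p F₀ (G1 K p (f.coeff 0) m) ρ P : K[X]) : PowerSeries K) =
        PowerSeries.expand P.1.natDegree (deg_ne P) ((E.map S.π : K[X]) : PowerSeries K) := by
      unfold Pool.Agent.K4H5.BC.dl
      rw [coe_expand _ (deg_ne P), hEπ]
    have h6 : PowerSeries.map S.π ((E : PowerSeries R) *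
        PowerSeries.invOfUnit (D : PowerSeries R) 1) * ((D.map S.π : K[X]) : PowerSeries K) =
        ((E.map S.π : K[X]) : PowerSeries K) := by
      rw [Polynomial.polynomial_map_coe, Polynomial.polynomial_map_coe, ← map_mul, mul_assoc,
        mul_comm (PowerSeries.invOfUnit _ _), hDi, mul_one]
    rw [h4, h5, PowerSeries.map_expand, ← map_mul, h6]

variable {O : Type} [CommRing O] [Algebra k[X] O] (G : Type) [Group G] [Finite G]
  [MulSemiringAction G O] [IsGaloisGroup G k[X] O] [FaithfulSMul k[X] O]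

include hF₀ hk hm har ha hM0 hχ in
/-- the Euler product over the covering and its reduction -/
theorem glob_kd {g : ℕ} (hG : Nat.card G = p ^ g) {δ β : ℕ} {f : k[X][X]}
    (hf : f.natDegree ≤ a) (hfc : ∀ b : ℕ, (f.coeff b).natDegree ≤ δ * (a - b) + β)
    (ρ : MI k → K) (hρ : ∀ P : MI k, aeval (ρ P) P.1 = 0) (B : k[X]) (hB : B ≠ 0)
    (hun : ∀ 𝔪 : MaximalSpectrum O, vO k 𝔪 B ≠ 0 → 𝔪.asIdeal.inertia G = ⊥) :
    ∃ N : PowerSeries R, LB O χ f = PowerSeries.rescale ((p : R) ^ F₀) N ∧
      PowerSeries.map S.π N * (((∏ P ∈ divs B,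
        dl p F₀ (G1 K p (f.coeff 0) m) ρ P ^ defect O G P) *
          Del1 K p F₀ (f.coeff 0) m ^ Nat.card G : K[X]) : PowerSeries K) =
      (((∏ P ∈ divs B,
        dl p F₀ (GM K p (fun b : Fin (a + 1) => f.coeff b) m) ρ P ^ defect O G P) *
          Del K p F₀ (fun b : Fin (a + 1) => f.coeff b) m δ β ^ Nat.card G : K[X]) :
            PowerSeries K) := by
  obtain ⟨LD, L1, hc, h1, h2, h3⟩ := global_bc S G hF₀ hk hm har ha hM0 χ hχ hG hf hfc ρ hρ B hB hun
  have hi := inv_series hc
  refine ⟨L1 * PowerSeries.invOfUnit LD 1, ?_, ?_⟩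
  · have h4 := congrArg (PowerSeries.rescale ((p : R) ^ F₀)) hi
    rw [map_mul, map_one] at h4
    rw [map_mul, ← h1, mul_assoc, h4, mul_one]
  · have h4 := congrArg (PowerSeries.map S.π) hi
    rw [map_mul, map_one] at h4
    rw [map_mul]
    linear_combination (PowerSeries.map S.π (PowerSeries.invOfUnit LD 1)) * h3 -
      (PowerSeries.map S.π (PowerSeries.invOfUnit LD 1)) * h2 +
      ((((∏ P ∈ divs B,
        dl p F₀ (GM K p (fun b : Fin (a + 1) => f.coeff b) m) ρ P ^ defect O G P) *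
          Del K p F₀ (fun b : Fin (a + 1) => f.coeff b) m δ β ^ Nat.card G : K[X]) :
            PowerSeries K)) * h4

end form

end Pool.Agent.K4H5.KD
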