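import Pool.Agent.K4H5.KD.Sys2
import Mathlib.RingTheory.PowerSeries.Trunc
import Mathlib.Analysis.Complex.Polynomial.Basic

/-!
The roots of a polynomial with integral coefficients and the roots of its reduction.
-/

set_option autoImplicit false
set_option linter.unusedSectionVars false

open Polynomial

namespace Pool.Agent.K4H5.KD

open Pool.Agent.K4H5.BC

section fac

theorem prod_inv (H : ℂ[X]) (h : H.coeff 0 = 1) :
    H = (H.roots.map fun y => 1 - C y⁻¹ * X).prod := by
  have hne : ∀ y ∈ H.roots, y ≠ 0 := by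
    rintro y hy rfl
    have h1 := (mem_roots'.1 hy).2
    rw [IsRoot, ← coeff_zero_eq_eval_zero, h] at h1
    exact one_ne_zero h1
  have h1 : ∀ s : Multiset ℂ, (∀ y ∈ s, y ≠ 0) → (s.map fun y => X - C y).prod =
      C ((s.map fun y => -y).prod) * (s.map fun y => 1 - C y⁻¹ * X).prod := by
    intro s
    induction s using Multiset.induction_on with
    | empty => simp
    | cons z s ih =>
      intro hs
      have hz := hs z (Multiset.mem_cons_self z s)
      rw [Multiset.map_cons, Multiset.prod_cons, ih fun w hw => hs w (Multiset.mem_cons_of_mem hw),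
        Multiset.map_cons, Multiset.prod_cons, Multiset.map_cons, Multiset.prod_cons, C_mul]
      have h2 : (X - C z : ℂ[X]) = C (-z) * (1 - C z⁻¹ * X) := by
        rw [mul_sub, mul_one, ← mul_assoc, ← C_mul, neg_mul, mul_inv_cancel₀ hz, C_neg, C_neg, C_1]
        ring
      rw [h2]
      ring
  have h2 := (IsAlgClosed.splits H).eq_prod_roots
  rw [h1 _ hne, ← mul_assoc, ← C_mul] at h2
  have h3 : H.leadingCoeff * (H.roots.map fun y => -y).prod = 1 := by
    have h4 := congrArg (fun g : ℂ[X] => g.eval 0) h2
    simp only [eval_mul, eval_C, eval_multiset_prod, Multiset.map_map] at h4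
    have h5 : (H.roots.map ((fun g : ℂ[X] => eval 0 g) ∘ fun y => 1 - C y⁻¹ * X)).prod = 1 := by
      refine Multiset.prod_eq_one ?_
      intro c hc
      rw [Multiset.mem_map] at hc
      obtain ⟨z, -, rfl⟩ := hc
      simp
    rw [← coeff_zero_eq_eval_zero, h] at h4
    rw [h4]
    simpa using h5.symm
  rw [h3, C_1, one_mul] at h2
  exact h2

theorem rootMult_prod {K : Type} [Field K] [DecidableEq K] (s : Multiset K) {u : K} (hu : u ≠ 0) :
    ((s.map fun x => (1 - C x * X : K[X])).prod).rootMultiplicity u⁻¹ = s.count u := by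
  have hne : ∀ x : K, (1 - C x * X : K[X]) ≠ 0 := by
    intro x h
    have h1 := congrArg (fun g : K[X] => g.eval 0) h
    simp at h1
  induction s using Multiset.induction_on with
  | empty => simp
  | cons z s ih =>
    have hp : ((s.map fun x => (1 - C x * X : K[X])).prod) ≠ 0 := by
      rw [Ne, Multiset.prod_eq_zero_iff, Multiset.mem_map]
      rintro ⟨w, -, h⟩
      exact hne w h
    rw [Multiset.map_cons, Multiset.prod_cons, rootMultiplicity_mul (mul_ne_zero (hne z) hp), ih,
      Multiset.count_cons, add_comm]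
    congr 1
    by_cases hz : z = 0
    · rw [if_neg (by rw [hz]; exact hu), hz, C_0, zero_mul, sub_zero]
      exact rootMultiplicity_eq_zero (by simp)
    · have h2 : (1 - C z * X : K[X]) = C (-z) * (X - C z⁻¹) := by
        rw [mul_sub, ← C_mul, neg_mul, mul_inv_cancel₀ hz, C_neg, C_neg, C_1]
        ring
      have h3 : (C (-z) * (X - C z⁻¹) : K[X]) ≠ 0 := by
        rw [← h2]
        exact hne z
      rw [h2, rootMultiplicity_mul h3, rootMultiplicity_C, zero_add, rootMultiplicity_X_sub_C]
      by_cases h : u = z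
      · rw [if_pos (by rw [h]), if_pos h]
      · rw [if_neg (fun h' => h (inv_injective h')), if_neg h]

end fac

section res

variable {K : Type} [Field K] (φ : AI →+* K)

/-- the residue of a number -/
def ResAt (z : ℂ) (u : K) : Prop :=
  ∃ x s : AI, φ s ≠ 0 ∧ (s : ℂ) * z = x ∧ φ x = φ s * u

open Classical in
/-- the number of the roots with a given residue -/
noncomputable def lam (q : ℂ) (u : K) (H : ℂ[X]) : ℕ :=
  Multiset.card (H.roots.filter fun y => ResAt φ (q * y)⁻¹ u)

variable {φ} {R : Type} [CommRing R] [IsDomain R] {π : R →+* K} {ι : R →+* ℂ} {jj : AI →+* R}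
  (hι : Function.Injective ι) (hπj : ∀ a, π (jj a) = φ a) (hιj : ∀ a, ι (jj a) = (a : ℂ))
  (hfrac : ∀ r : R, ∃ x s : AI, φ s ≠ 0 ∧ r * jj s = jj x)

include hι hπj hιj hfrac in
theorem resAt_iff (r : R) (u : K) : ResAt φ (ι r) u ↔ π r = u := by
  constructor
  · rintro ⟨x, s, hs, h1, h2⟩
    have h3 : jj s * r = jj x := hι (by rw [map_mul, hιj, hιj, h1])
    have h4 := congrArg π h3
    rw [map_mul, hπj, hπj, h2] at h4
    exact mul_left_cancel₀ hs h4
  · rintro rfl
    obtain ⟨x, s, hs, h1⟩ := hfrac r
    refine ⟨x, s, hs, ?_, ?_⟩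
    · rw [← hιj, ← hιj, ← h1, map_mul, mul_comm]
    · rw [← hπj, ← hπj, ← h1, map_mul, mul_comm]

variable (hint : ∀ (z : ℂ) (g : R[X]), g.Monic → eval₂ ι z g = 0 → ∃ r, ι r = z)

include hι hπj hιj hfrac hint in
/-- **the roots of a polynomial and the roots of its reduction** -/
theorem lam_eq {Q : R} (hQ : Q ≠ 0) (H : ℂ[X]) (N : PowerSeries R)
    (hN : PowerSeries.constantCoeff N = 1)
    (hH : (H : PowerSeries ℂ) = PowerSeries.map ι (PowerSeries.rescale Q N)) :
    ∃ V : K[X], V.coeff 0 = 1 ∧ (V : PowerSeries K) = PowerSeries.map π N ∧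
      (∀ u : K, u ≠ 0 → V.rootMultiplicity u⁻¹ = lam φ (ι Q) u H) ∧
      ∃ v : R, ι v = H.eval (ι Q)⁻¹ ∧ π v = V.eval 1 := by
  classical
  have hq : ι Q ≠ 0 := fun h => hQ (hι (by rw [h, map_zero]))
  have hW0 : ∀ i, H.natDegree < i → PowerSeries.coeff i N = 0 := by
    intro i hi
    have h2 := congrArg (PowerSeries.coeff i) hH
    rw [PowerSeries.coeff_map, PowerSeries.coeff_rescale, Polynomial.coeff_coe,
      coeff_eq_zero_of_natDegree_lt hi, eq_comm, map_eq_zero_iff ι hι] at h2
    exact (mul_eq_zero.1 h2).resolve_left (pow_ne_zero _ hQ)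
  set V : R[X] := PowerSeries.trunc (H.natDegree + 1) N with hV
  have hVN : (V : PowerSeries R) = N := by
    ext n
    rw [Polynomial.coeff_coe, hV, PowerSeries.coeff_trunc]
    split_ifs with h
    · rfl
    · rw [hW0 n (by omega)]
  have hV0 : V.coeff 0 = 1 := by
    rw [← Polynomial.coeff_coe, hVN, PowerSeries.coeff_zero_eq_constantCoeff_apply, hN]
  have hVH : (V.map ι).comp (C (ι Q) * X) = H := by
    apply Polynomial.coe_injective
    rw [hH, ← hVN]
    ext i
    rw [Polynomial.coeff_coe, comp_C_mul_X_coeff, Polynomial.coeff_map, PowerSeries.coeff_map,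
      PowerSeries.coeff_rescale, Polynomial.coeff_coe, map_mul, map_pow, mul_comm]
  have hH0 : H.coeff 0 = 1 := by
    rw [← hVH, comp_C_mul_X_coeff, pow_zero, mul_one, Polynomial.coeff_map, hV0, map_one]
  have hHne : H ≠ 0 := by
    intro h
    rw [h, coeff_zero] at hH0
    exact zero_ne_one hH0
  have hne : ∀ y ∈ H.roots, y ≠ 0 := by
    rintro y hy rfl
    have h1 := (mem_roots'.1 hy).2
    rw [IsRoot, ← coeff_zero_eq_eval_zero, hH0] at h1
    exact one_ne_zero h1
  have hex : ∀ y : ℂ, ∃ r : R, y ∈ H.roots → ι r = (ι Q * y)⁻¹ := by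
    intro y
    by_cases hy : y ∈ H.roots
    · have hy0 := hne y hy
      have h1 : eval₂ ι (ι Q * y) V = 0 := by
        have h2 := (mem_roots'.1 hy).2
        rw [IsRoot, ← hVH, eval_comp] at h2
        simp only [eval_mul, eval_C, eval_X] at h2
        rwa [eval_map] at h2
      have hmon : V.reverse.Monic := by
        rw [Monic, reverse_leadingCoeff, trailingCoeff]
        have h3 : V.natTrailingDegree = 0 :=
          natTrailingDegree_eq_zero_of_constantCoeff_ne_zero (by
            show V.coeff 0 ≠ 0
            rw [hV0]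
            exact one_ne_zero)
        rw [h3, hV0]
      letI : Invertible (ι Q * y) := invertibleOfNonzero (mul_ne_zero hq hy0)
      have h4 : eval₂ ι (⅟(ι Q * y)) V.reverse = 0 :=
        (eval₂_reverse_eq_zero_iff ι (ι Q * y) V).2 h1
      rw [invOf_eq_inv] at h4
      obtain ⟨r, hr⟩ := hint _ _ hmon h4
      exact ⟨r, fun _ => hr⟩
    · exact ⟨0, fun h => absurd h hy⟩
  choose r hr using hex
  have hVfac : V = (H.roots.map fun y => 1 - C (r y) * X).prod := by
    apply map_injective ι hι
    have h1 : Function.Injective (fun g : ℂ[X] => g.comp (C (ι Q) * X)) := by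
      intro g g' h
      ext i
      have h2 := congrArg (fun g : ℂ[X] => g.coeff i) h
      simp only [comp_C_mul_X_coeff] at h2
      exact mul_right_cancel₀ (pow_ne_zero i hq) h2
    apply h1
    show (V.map ι).comp _ = _
    rw [hVH]
    conv_lhs => rw [prod_inv H hH0]
    show _ = (Polynomial.map ι _).comp _
    rw [← coe_mapRingHom, map_multiset_prod, ← coe_compRingHom_apply, map_multiset_prod,
      Multiset.map_map, Multiset.map_map]
    congr 1
    refine Multiset.map_congr rfl fun y hy => ?_
    have hy0 := hne y hy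
    simp only [Function.comp, coe_compRingHom_apply, coe_mapRingHom, Polynomial.map_sub,
      Polynomial.map_one, Polynomial.map_mul, map_C, map_X, sub_comp, one_comp, mul_comp, C_comp,
      X_comp, hr y hy]
    rw [← mul_assoc, ← C_mul]
    congr 3
    field_simp
  refine ⟨V.map π, by rw [Polynomial.coeff_map, hV0, map_one], by
    rw [Polynomial.polynomial_map_coe, hVN], ?_, V.eval 1, ?_, ?_⟩
  · intro u hu
    have h1 : V.map π = ((H.roots.map fun y => π (r y)).map fun x => 1 - C x * X).prod := by
      conv_lhs => rw [hVfac]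
      rw [← coe_mapRingHom, map_multiset_prod, Multiset.map_map, Multiset.map_map]
      congr 1
      refine Multiset.map_congr rfl fun y hy => ?_
      simp only [Function.comp, coe_mapRingHom, Polynomial.map_sub, Polynomial.map_one,
        Polynomial.map_mul, map_C, map_X]
    rw [h1, rootMult_prod _ hu]
    unfold lam
    rw [Multiset.count_map]
    congr 1
    refine Multiset.filter_congr fun y hy => ?_
    rw [← hr y hy, resAt_iff hι hπj hιj hfrac, eq_comm]
  · have h1 := congrArg (fun g : ℂ[X] => g.eval (ι Q)⁻¹) hVH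
    simp only [eval_comp, eval_mul, eval_C, eval_X] at h1
    rw [mul_inv_cancel₀ hq] at h1
    rw [← h1, eval_map, ← eval₂_hom, map_one]
  · rw [eval_map, ← eval₂_hom, map_one]

end res

end Pool.Agent.K4H5.KD
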