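import Pool.Agent.K4H5.KD.Form
import Pool.Agent.K4H5.KD.Roots
import Pool.Agent.K4H5.BD.Main

/-!
The exact formula for the number of the roots with a given residue and for the residue of the value.
-/

set_option autoImplicit false
set_option linter.unusedSectionVars false

open Polynomial Module

namespace Pool.Agent.K4H5.KD

open Pool.Agent.W313.Hyp Pool.Agent.W343.BSD Pool.Agent.Y709 Pool.Agent.Y709.Gen
  Pool.Agent.Y709.Lay Pool.Agent.K4H5.BC

theorem galois_self (A : Type) [CommRing A] : IsGaloisGroup (A ≃ₐ[A] A) A A where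
  faithful := inferInstance
  commutes := inferInstance
  isInvariant := ⟨fun b _ => ⟨b, rfl⟩⟩

theorem subsingleton_self (A : Type) [CommRing A] : Subsingleton (A ≃ₐ[A] A) :=
  ⟨fun s t => AlgEquiv.ext fun a => (s.commutes a).trans (t.commutes a).symm⟩

section map

variable {k : Type} [Field k] [Fintype k]

theorem map_LP {R A : Type} [CommRing R] [IsDomain R] [CharZero R] [CommRing A] [IsDomain A]
    [CharZero A] (ι : R →+* A) (χ : MulChar k R)
    (χ' : MulChar k A) (h : ∀ u, χ' u = ι (χ u)) (f : k[X][X]) (P : MI k) :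
    PowerSeries.map ι (LP χ f P) = LP χ' f P := by
  have : Fact (Irreducible P.1) := ⟨P.2.2⟩
  have hfd : FiniteDimensional k (AdjoinRoot P.1) := P.2.1.finite_adjoinRoot
  have hfin : Finite (AdjoinRoot P.1) := Module.finite_of_finite k
  unfold LP
  rw [PowerSeries.map_expand]
  congr 1
  unfold fibG
  rw [map_eulerProd (fun n => finite_deg_le (F := AdjoinRoot P.1) n)]
  congr 1
  funext Q
  rw [map_sub, map_one, map_mul, map_pow, PowerSeries.map_X, PowerSeries.map_C, h]

theorem constantCoeff_LB {O : Type} [CommRing O] [Algebra k[X] O] (G : Type) [Group G] [Finite G]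
    [MulSemiringAction G O] [IsGaloisGroup G k[X] O] {R : Type} [CommRing R]
    (χ : MulChar k R) (f : k[X][X]) :
    PowerSeries.constantCoeff (LB O χ f) = 1 := by
  have hfin := fun n => points_finite (k := k) (O := O) G n
  rw [LB_eq G, ← PowerSeries.coeff_zero_eq_constantCoeff_apply, coeff_eulerProd hfin]
  have h3 : (hfin 0).toFinset = ∅ := by
    rw [Set.Finite.toFinset_eq_empty]
    ext 𝔪
    simp only [Set.mem_ofPred_eq, Set.mem_empty_iff_false, iff_false]
    have := Nat.pos_of_ne_zero (finrank_ne' (k := k) G 𝔪)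
    omega
  rw [h3, Finset.prod_empty, PowerSeries.coeff_zero_one]

end map

section prods

variable {K : Type} [Field K]

theorem rootMult_prod_pow {ι : Type} (s : Finset ι) (W : ι → K[X]) (d : ι → ℕ)
    (hW : ∀ i, W i ≠ 0) (V : K[X]) (hV : V ≠ 0) (g : ℕ) (y : K) :
    ((∏ i ∈ s, W i ^ d i) * V ^ g).rootMultiplicity y =
      g * V.rootMultiplicity y + ∑ i ∈ s, d i * (W i).rootMultiplicity y := by
  classical
  have e1 : (∏ i ∈ s, W i ^ d i : K[X]) ≠ 0 :=
    Finset.prod_ne_zero_iff.2 fun i _ => pow_ne_zero _ (hW i)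
  have e2 : (∏ i ∈ s, W i ^ d i).rootMultiplicity y =
      ∑ i ∈ s, d i * (W i).rootMultiplicity y := by
    rw [← count_roots, roots_prod _ _ e1, Multiset.count_bind]
    refine Finset.sum_congr rfl fun i _ => ?_
    rw [roots_pow, Multiset.count_nsmul, count_roots]
  have e3 : (V ^ g).rootMultiplicity y = g * V.rootMultiplicity y := by
    rw [← count_roots, roots_pow, Multiset.count_nsmul, count_roots]
  rw [rootMultiplicity_mul (mul_ne_zero e1 (pow_ne_zero _ hV)), e2, e3, add_comm]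

theorem ne_of_coeff {V : K[X]} (h : V.coeff 0 = 1) : V ≠ 0 := by
  rintro rfl
  rw [coeff_zero] at h
  exact zero_ne_one h

end prods

/-- **the formulas for the number of the roots and for the value** -/
theorem main_kd (k : Type) [Field k] [Fintype k] (p : ℕ) [hp : Fact p.Prime] [CharP k p]
    {n a j : ℕ} (hn : n ∣ Fintype.card k - 1) (ha : 2 ≤ a) (hj0 : 0 < j)
    (hjn : j < n) (hij : ∀ i, a * ((p ^ i * j) % n) < n) (χ : MulChar k ℂ)
    (φ : AI →+* AlgebraicClosure k)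
    (hφ : ∀ u : k, ∃ x : AI, (x : ℂ) = χ u ∧
      φ x = algebraMap k (AlgebraicClosure k) u ^ (j * (Fintype.card k - 1) / n))
    (f : k[X][X]) (hf : f.natDegree ≤ a) {δ β : ℕ}
    (hfc : ∀ b : ℕ, (f.coeff b).natDegree ≤ δ * (a - b) + β) (bd : ℕ)
    (hbd : ∀ F₀ : ℕ, 0 < F₀ → Fintype.card k = p ^ F₀ →
      (Del (AlgebraicClosure k) p F₀ (fun b : Fin (a + 1) => f.coeff b) (dig p F₀ n j) δ β).natDegree
        ≤ bd)
    (H₀ : ℂ[X]) (hH₀ : LB k[X] χ f = (H₀ : PowerSeries ℂ)) :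
    (∀ Z : Finset (AlgebraicClosure k), (∀ u ∈ Z, u ≠ 0) →
      ∑ u ∈ Z, lam φ (Fintype.card k : ℂ) u H₀ ≤ bd) ∧
    (bd = 0 → ResAt φ (H₀.eval (Fintype.card k : ℂ)⁻¹) 1) ∧
    ∀ (G O : Type) [Group G] [Finite G] [CommRing O] [Algebra k[X] O] [MulSemiringAction G O]
      [IsGaloisGroup G k[X] O] [FaithfulSMul k[X] O] (g : ℕ) (_ : Nat.card G = p ^ g) (B : k[X])
      (_ : B ≠ 0) (_ : ∀ 𝔪 : MaximalSpectrum O, vO k 𝔪 B ≠ 0 → 𝔪.asIdeal.inertia G = ⊥)
      (H : ℂ[X]) (_ : LB O χ f = (H : PowerSeries ℂ)) (Hloc : MI k → ℂ[X])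
      (_ : ∀ P ∈ divs B, defect O G P ≠ 0 → LP χ f P * (Hloc P : PowerSeries ℂ) = 1),
      (∀ u : AlgebraicClosure k, u ≠ 0 → lam φ (Fintype.card k : ℂ) u H =
        Nat.card G * lam φ (Fintype.card k : ℂ) u H₀ +
          ∑ P ∈ divs B, defect O G P * lam φ (Fintype.card k : ℂ) u (Hloc P)) ∧
      ∃ (u₀ : AlgebraicClosure k) (uloc : MI k → AlgebraicClosure k),
        ResAt φ (H₀.eval (Fintype.card k : ℂ)⁻¹) u₀ ∧
        (∀ P ∈ divs B, defect O G P ≠ 0 →
          ResAt φ ((Hloc P).eval (Fintype.card k : ℂ)⁻¹) (uloc P)) ∧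
        ResAt φ (H.eval (Fintype.card k : ℂ)⁻¹)
          ((∏ P ∈ divs B, uloc P ^ defect O G P) * u₀ ^ Nat.card G) := by
  classical
  have hp0 := hp.out.pos
  have hp1 := hp.out.one_lt
  have hn0 : 0 < n := by omega
  obtain ⟨⟨F₀, hF₀⟩, -, hF₀'⟩ := FiniteField.card k p
  have hk : Fintype.card k = p ^ F₀ := hF₀'
  have hn' : n ∣ p ^ F₀ - 1 := by
    rw [← hk]
    exact hn
  have hbd' := hbd F₀ hF₀ hk
  set m : ℕ → ℕ := dig p F₀ n j with hmdef
  have hm : ∀ i, m (i + F₀) = m i := dig_per hp0 hn'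
  have hq1 : 1 < p ^ F₀ := Nat.one_lt_pow hF₀.ne' hp1
  have hrot : ∀ i, n * rot p F₀ m i = rem p F₀ n j i * (p ^ F₀ - 1) := rot_dig hp0 hF₀ hn'
  have har : ∀ i, a * rot p F₀ m i < p ^ F₀ - 1 := by
    intro i
    have h1 : a * rem p F₀ n j i < n := hij _
    have h2 : n * (a * rot p F₀ m i) < n * (p ^ F₀ - 1) := by
      calc n * (a * rot p F₀ m i) = a * (n * rot p F₀ m i) := by ring
        _ = (a * rem p F₀ n j i) * (p ^ F₀ - 1) := by rw [hrot]; ring
        _ < n * (p ^ F₀ - 1) := Nat.mul_lt_mul_of_pos_right h1 (by omega)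
    exact Nat.lt_of_mul_lt_mul_left h2
  have hrem0 : rem p F₀ n j 0 = j := by
    unfold rem
    rw [mul_zero, pow_zero, one_mul, Nat.mod_eq_of_lt hjn]
  have hM : n * rot p F₀ m 0 = j * (p ^ F₀ - 1) := by rw [hrot, hrem0]
  have hM0 : 0 < rot p F₀ m 0 := by
    rcases Nat.eq_zero_or_pos (rot p F₀ m 0) with h | h
    · rw [h, mul_zero] at hM
      have : 0 < j * (p ^ F₀ - 1) := Nat.mul_pos hj0 (by omega)
      omega
    · exact h
  have hMe : j * (Fintype.card k - 1) / n = rot p F₀ m 0 := by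
    rw [hk, ← hM, Nat.mul_div_cancel_left _ hn0]
  rw [hMe] at hφ
  have hKp : CharP (AlgebraicClosure k) p :=
    charP_of_injective_algebraMap (algebraMap k (AlgebraicClosure k)).injective p
  obtain ⟨R, i1, i2, i3, S, ι, jj, hι, hπj, hιj, hfrac, hint, hχι⟩ :=
    exists_sys_of p k (AlgebraicClosure k) φ χ hM0 hφ
  let χR : MulChar k R := (S.wc (algebraMap k (AlgebraicClosure k))) ^ rot p F₀ m 0
  have hχR : ∀ u, χR u = S.w (algebraMap k (AlgebraicClosure k)) u ^ rot p F₀ m 0 := by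
    intro u
    show ((S.wc (algebraMap k (AlgebraicClosure k))) ^ rot p F₀ m 0) u = _
    rw [MulChar.pow_apply' _ hM0.ne']
    rfl
  have hχ' : ∀ u, χ u = ι (χR u) := fun u => by rw [hχι, hχR]
  set Q : R := (p : R) ^ F₀ with hQ
  have hQ0 : Q ≠ 0 := pow_ne_zero _ (Nat.cast_ne_zero.2 hp0.ne')
  have hιQ : ι Q = (Fintype.card k : ℂ) := by
    rw [hQ, map_pow, map_natCast, hk, Nat.cast_pow]
  have hroot := fun P : MI k => exists_root_MI (K := AlgebraicClosure k) P
  choose ρ hρ using hroot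
  set fc : Fin (a + 1) → k[X] := fun b : Fin (a + 1) => f.coeff b with hfcd
  set Δ := Del (AlgebraicClosure k) p F₀ fc m δ β with hΔd
  set Δ1 := Del1 (AlgebraicClosure k) p F₀ (f.coeff 0) m with hΔ1d
  have hΔ : Δ ≠ 0 := charpolyRev_ne _
  have hΔ1 : Δ1 ≠ 0 := charpolyRev_ne _
  have hres : ∀ r : R, ResAt φ (ι r) (S.π r) := fun r =>
    (resAt_iff hι hπj hιj hfrac r _).2 rfl
  -- the reduction of the L-function over a covering
  have hglob : ∀ (G O : Type) [Group G] [Finite G] [CommRing O] [Algebra k[X] O]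
      [MulSemiringAction G O] [IsGaloisGroup G k[X] O] [FaithfulSMul k[X] O] (g : ℕ)
      (_ : Nat.card G = p ^ g) (B : k[X]) (_ : B ≠ 0)
      (_ : ∀ 𝔪 : MaximalSpectrum O, vO k 𝔪 B ≠ 0 → 𝔪.asIdeal.inertia G = ⊥)
      (H : ℂ[X]) (_ : LB O χ f = (H : PowerSeries ℂ)),
      ∃ V : (AlgebraicClosure k)[X], V.coeff 0 = 1 ∧
        V * ((∏ P ∈ divs B, dl p F₀ (G1 (AlgebraicClosure k) p (f.coeff 0) m) ρ P ^
          defect O G P) * Δ1 ^ Nat.card G) =
        (∏ P ∈ divs B, dl p F₀ (GM (AlgebraicClosure k) p fc m) ρ P ^ defect O G P) *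
          Δ ^ Nat.card G ∧
        (∀ u : AlgebraicClosure k, u ≠ 0 → V.rootMultiplicity u⁻¹ =
          lam φ (Fintype.card k : ℂ) u H) ∧
        ∃ v : R, ι v = H.eval (Fintype.card k : ℂ)⁻¹ ∧ S.π v = V.eval 1 := by
    intro G O _ _ _ _ _ _ _ g hG B hB hun H hH
    obtain ⟨N, hN, hN'⟩ := glob_kd S hF₀ hk hm har ha hM0 χR hχR G hG hf hfc ρ hρ B hB hun
    have hNc : PowerSeries.constantCoeff N = 1 := by
      have h1 := constantCoeff_LB (O := O) G χR f
      rw [hN, ← PowerSeries.coeff_zero_eq_constantCoeff_apply, PowerSeries.coeff_rescale, pow_zero,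
        one_mul, PowerSeries.coeff_zero_eq_constantCoeff_apply] at h1
      exact h1
    have hmap := map_LB (O := O) G ι χR χ hχ' f
    rw [hN, hH] at hmap
    obtain ⟨V, hV0, hV1, hV2, v, hv1, hv2⟩ := lam_eq hι hπj hιj hfrac hint hQ0 H N hNc hmap.symm
    rw [hιQ] at hV2 hv1
    refine ⟨V, hV0, ?_, hV2, v, hv1, hv2⟩
    apply Polynomial.coe_injective
    rw [Polynomial.coe_mul, hV1]
    exact hN'
  -- the base
  have i7 : IsGaloisGroup (k[X] ≃ₐ[k[X]] k[X]) k[X] k[X] := galois_self _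
  have i9 : Subsingleton (k[X] ≃ₐ[k[X]] k[X]) := subsingleton_self _
  have i8 : Finite (k[X] ≃ₐ[k[X]] k[X]) := Finite.of_subsingleton
  have hG1 : Nat.card (k[X] ≃ₐ[k[X]] k[X]) = 1 :=
    Nat.card_eq_one_iff_unique.2 ⟨i9, inferInstance⟩
  have hdiv : divs (1 : k[X]) = ∅ := by
    rw [Finset.eq_empty_iff_forall_notMem]
    intro P hP
    rw [mem_divs one_ne_zero] at hP
    exact P.2.2.not_isUnit (isUnit_of_dvd_one hP)
  obtain ⟨V₀, hV₀c, hV₀, hV₀l, v₀, hv₀, hv₀'⟩ := hglob (k[X] ≃ₐ[k[X]] k[X]) k[X] 0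
    (by rw [hG1, pow_zero]) 1 one_ne_zero (fun 𝔪 _ => Subsingleton.elim _ _) H₀ hH₀
  rw [hdiv, Finset.prod_empty, Finset.prod_empty, hG1, pow_one, pow_one, one_mul, one_mul] at hV₀
  have hV₀0 : V₀ ≠ 0 := ne_of_coeff hV₀c
  have hV₀d : V₀.natDegree ≤ bd := by
    refine le_trans ?_ hbd'
    refine natDegree_le_of_dvd ⟨Δ1, hV₀.symm⟩ hΔ
  refine ⟨?_, ?_, ?_⟩
  · intro Z hZ
    refine le_trans ?_ hV₀d
    have h1 : ∑ u ∈ Z, lam φ (Fintype.card k : ℂ) u H₀ = ∑ u ∈ Z, V₀.rootMultiplicity u⁻¹ :=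
      Finset.sum_congr rfl fun u hu => (hV₀l u (hZ u hu)).symm
    rw [h1, ← Finset.sum_image (f := fun y => V₀.rootMultiplicity y)
      (fun x _ y _ h => inv_injective h)]
    exact sum_rootMult_le V₀ _
  · intro h0
    rw [h0, Nat.le_zero] at hV₀d
    have h1 : V₀ = 1 := by
      rw [eq_C_of_natDegree_eq_zero hV₀d, hV₀c, C_1]
    have h2 := hres v₀
    rw [hv₀, hv₀', h1, eval_one] at h2
    exact h2
  · intro G O _ _ _ _ _ _ _ g hG B hB hun H hH Hloc hloc
    obtain ⟨V, hVc, hV, hVl, v, hv, hv'⟩ := hglob G O g hG B hB hun H hH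
    have hW : ∀ P : MI k, ∃ W : (AlgebraicClosure k)[X], W.coeff 0 = 1 ∧
        (P ∈ divs B → defect O G P ≠ 0 →
          W * dl p F₀ (G1 (AlgebraicClosure k) p (f.coeff 0) m) ρ P =
            dl p F₀ (GM (AlgebraicClosure k) p fc m) ρ P ∧
          (∀ u : AlgebraicClosure k, u ≠ 0 → W.rootMultiplicity u⁻¹ =
            lam φ (Fintype.card k : ℂ) u (Hloc P)) ∧
          ∃ v : R, ι v = (Hloc P).eval (Fintype.card k : ℂ)⁻¹ ∧ S.π v = W.eval 1) := by
      intro P
      by_cases hP : P ∈ divs B ∧ defect O G P ≠ 0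
      · obtain ⟨N, hNc, hN, hN'⟩ := local_kd S hF₀ hk hm har ha hM0 χR hχR f hf ρ hρ P
        have hNi := inv_series hNc
        set N' := PowerSeries.invOfUnit N 1 with hN'd
        have hN'c : PowerSeries.constantCoeff N' = 1 := by
          have h2 := congrArg PowerSeries.constantCoeff hNi
          rwa [map_mul, hNc, one_mul, map_one] at h2
        have h1 := hloc P hP.1 hP.2
        rw [← map_LP ι χR χ hχ', hN] at h1
        have h2 : PowerSeries.map ι (PowerSeries.rescale Q N) *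
            PowerSeries.map ι (PowerSeries.rescale Q N') = 1 := by
          rw [← map_mul, ← map_mul, hNi, map_one, map_one]
        have h3 : ((Hloc P : ℂ[X]) : PowerSeries ℂ) =
            PowerSeries.map ι (PowerSeries.rescale Q N') := by
          linear_combination PowerSeries.map ι (PowerSeries.rescale Q N') * h1 -
            ((Hloc P : ℂ[X]) : PowerSeries ℂ) * h2
        obtain ⟨W, hW0, hW1, hW2, w, hw1, hw2⟩ := lam_eq hι hπj hιj hfrac hint hQ0 (Hloc P) N'
          hN'c h3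
        rw [hιQ] at hW2 hw1
        refine ⟨W, hW0, fun _ _ => ⟨?_, hW2, w, hw1, hw2⟩⟩
        apply Polynomial.coe_injective
        rw [Polynomial.coe_mul, hW1, ← hN']
        have h4 := congrArg (PowerSeries.map S.π) hNi
        rw [map_mul, map_one] at h4
        linear_combination ((dl p F₀ (GM (AlgebraicClosure k) p fc m) ρ P :
          (AlgebraicClosure k)[X]) : PowerSeries (AlgebraicClosure k)) * h4
      · exact ⟨1, by simp, fun h1 h2 => absurd ⟨h1, h2⟩ hP⟩
    choose W hWc hW using hW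
    have hW0 : ∀ P, W P ≠ 0 := fun P => ne_of_coeff (hWc P)
    have hfac : V = (∏ P ∈ divs B, W P ^ defect O G P) * V₀ ^ Nat.card G := by
      have h1 : (∏ P ∈ divs B, dl p F₀ (G1 (AlgebraicClosure k) p (f.coeff 0) m) ρ P ^
          defect O G P) * Δ1 ^ Nat.card G ≠ 0 :=
        mul_ne_zero (Finset.prod_ne_zero_iff.2 fun P _ => pow_ne_zero _ (dl_ne _ ρ P))
          (pow_ne_zero _ hΔ1)
      apply mul_right_cancel₀ h1
      rw [hV, ← hV₀]
      have h2 : (∏ P ∈ divs B, dl p F₀ (GM (AlgebraicClosure k) p fc m) ρ P ^ defect O G P) =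
          (∏ P ∈ divs B, W P ^ defect O G P) *
            ∏ P ∈ divs B, dl p F₀ (G1 (AlgebraicClosure k) p (f.coeff 0) m) ρ P ^
              defect O G P := by
        rw [← Finset.prod_mul_distrib]
        refine Finset.prod_congr rfl fun P hP => ?_
        by_cases h : defect O G P = 0
        · rw [h, pow_zero, pow_zero, pow_zero, one_mul]
        · rw [← (hW P hP h).1, mul_pow]
      rw [h2, mul_pow]
      ring
    constructor
    · intro u hu
      rw [← hVl u hu, ← hV₀l u hu, hfac, rootMult_prod_pow _ _ _ hW0 _ hV₀0]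
      congr 1
      refine Finset.sum_congr rfl fun P hP => ?_
      by_cases h : defect O G P = 0
      · rw [h, zero_mul, zero_mul]
      · rw [(hW P hP h).2.1 u hu]
    · refine ⟨V₀.eval 1, fun P => (W P).eval 1, ?_, ?_, ?_⟩
      · rw [← hv₀, ← hv₀']
        exact hres v₀
      · intro P hP h
        obtain ⟨w, hw1, hw2⟩ := (hW P hP h).2.2
        show ResAt φ _ ((W P).eval 1)
        rw [← hw1, ← hw2]
        exact hres w
      · have h1 : V.eval 1 = (∏ P ∈ divs B, (W P).eval 1 ^ defect O G P) *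
            V₀.eval 1 ^ Nat.card G := by
          rw [hfac, eval_mul, eval_prod, eval_pow]
          congr 1
          exact Finset.prod_congr rfl fun P _ => eval_pow _
        rw [← h1, ← hv, ← hv']
        exact hres v

end Pool.Agent.K4H5.KD
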