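import Pool.Agent.K4H5.BD.Main

/-!
The existence of the place and the bound by the forms on the branch curve.
-/

set_option autoImplicit false
set_option linter.unusedSectionVars false

open Polynomial Module

namespace Pool.Agent.K4H5.KD

open Pool.Agent.W313.Hyp Pool.Agent.W343.BSD Pool.Agent.Y709 Pool.Agent.Y709.Gen
  Pool.Agent.Y709.Lay Pool.Agent.K4H5.BC Pool.Agent.K4H5.BD

/-- **the existence of the place** -/
theorem exists_phi (k : Type) [Field k] [Fintype k]
    {n : ℕ} (hn0 : 0 < n) (hn : n ∣ Fintype.card k - 1) (χ : MulChar k ℂ) (hχ : orderOf χ = n)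
    {j : ℕ} (hj : j.Coprime n) (hj0 : 0 < j) :
    ∃ φ : AI →+* AlgebraicClosure k, ∀ u : k, ∃ x : AI, (x : ℂ) = χ u ∧
      φ x = algebraMap k (AlgebraicClosure k) u ^ (j * (Fintype.card k - 1) / n) := by
  classical
  have hcard : 1 < Fintype.card k := Fintype.one_lt_card
  set K := AlgebraicClosure k with hK
  obtain ⟨c, hc⟩ := hn
  have hc0 : 0 < c := by
    rcases Nat.eq_zero_or_pos c with h | h
    · rw [h, mul_zero] at hc
      omega
    · exact h
  have hMc : j * (Fintype.card k - 1) / n = c * j := by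
    rw [hc]
    have : j * (n * c) = n * (c * j) := by ring
    rw [this, Nat.mul_div_cancel_left _ hn0]
  rw [hMc]
  set M := c * j with hM
  have hM0 : 0 < M := Nat.mul_pos hc0 hj0
  obtain ⟨g, hg⟩ := IsCyclic.exists_generator (α := kˣ)
  have hξ : IsPrimitiveRoot (χ (g : k)) n := prim_of_order χ hn0 hχ hg
  have hgo : orderOf g = Fintype.card k - 1 := by
    rw [orderOf_eq_card_of_forall_mem_zpowers hg, Nat.card_eq_fintype_card, Fintype.card_units]
  have hη : IsPrimitiveRoot (algebraMap k K (g : k) ^ M) n := by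
    have h1 : IsPrimitiveRoot (algebraMap k K (g : k)) (Fintype.card k - 1) := by
      have h2 : IsPrimitiveRoot g (Fintype.card k - 1) := by
        rw [← hgo]
        exact IsPrimitiveRoot.orderOf g
      have h3 : IsPrimitiveRoot ((g : kˣ) : k) (Fintype.card k - 1) :=
        IsPrimitiveRoot.coe_units_iff.2 h2
      exact h3.map_of_injective (algebraMap k K).injective
    have h5 : IsPrimitiveRoot (algebraMap k K (g : k) ^ c) n :=
      h1.pow (by omega) (by rw [hc, mul_comm])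
    rw [hM, pow_mul]
    exact h5.pow_of_coprime j hj
  have hξint : IsIntegral ℤ (χ (g : k)) := hξ.isIntegral hn0
  let ξ : AI := ⟨χ (g : k), hξint⟩
  have hξ' : IsPrimitiveRoot ξ n := by
    have h1 : Function.Injective (algebraMap AI ℂ) := Subtype.val_injective
    exact IsPrimitiveRoot.of_map_of_injective (f := algebraMap AI ℂ) hξ h1
  obtain ⟨φ, hφ⟩ : ∃ φ : AI →+* K, φ ξ = algebraMap k K (g : k) ^ M := by
    let _ : Algebra (CR n) AI := (evR hn0 hξ').toAlgebra
    have hinj : Function.Injective (algebraMap (CR n) AI) := evR_inj hn0 hξ'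
    have hint : Algebra.IsIntegral (CR n) AI := by
      constructor
      intro x
      obtain ⟨P, hP1, hP2⟩ : IsIntegral ℤ x := Algebra.IsIntegral.isIntegral x
      refine ⟨P.map (Int.castRingHom (CR n)), hP1.map _, ?_⟩
      rw [eval₂_map, ← hP2]
      congr 1
      exact RingHom.ext_int _ _
    obtain ⟨φ, h1⟩ := exists_ext hinj (evR hn0 hη)
    refine ⟨φ, ?_⟩
    have h2 := h1 (AdjoinRoot.root _)
    rw [evR_root] at h2
    rw [← h2]
    congr 1
    exact (evR_root hn0 hξ').symm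
  refine ⟨φ, fun u => ?_⟩
  by_cases hu : u = 0
  · refine ⟨0, ?_, ?_⟩
    · rw [hu, MulChar.map_zero]
      rfl
    · rw [hu, map_zero, map_zero, zero_pow hM0.ne']
  · obtain ⟨i, hi⟩ : ∃ i : ℕ, g ^ i = Units.mk0 u hu := by
      have h1 := (mem_powers_iff_mem_zpowers (x := g) (y := Units.mk0 u hu)).2 (hg _)
      exact h1
    have hu' : u = (g : k) ^ i := by
      rw [← Units.val_pow_eq_pow_val, hi, Units.val_mk0]
    refine ⟨ξ ^ i, ?_, ?_⟩
    · rw [hu', map_pow]
      rfl
    · rw [map_pow, hφ, hu', map_pow, ← pow_mul, ← pow_mul, mul_comm]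

/-- the bound by the forms on the branch curve -/
theorem bd_adj (k : Type) [Field k] [Fintype k] (p : ℕ) [hp : Fact p.Prime] [CharP k p]
    {n a j : ℕ} (hn : n ∣ Fintype.card k - 1) (hj0 : 0 < j)
    (hjn : j < n) (hij : ∀ i, a * ((p ^ i * j) % n) < n)
    {κ : Type} [Fintype κ] (g : κ → k[X][X]) (E : κ → ℕ) (f : k[X][X]) (hfg : f = ∏ l, g l ^ E l)
    (hf : f.natDegree ≤ a) (hit : ∀ i, degT f * ((p ^ i * j) % n) < n) :
    ∀ F₀ : ℕ, 0 < F₀ → Fintype.card k = p ^ F₀ →
      (Del (AlgebraicClosure k) p F₀ (fun b : Fin (a + 1) => f.coeff b) (dig p F₀ n j) 0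
        (degT f)).natDegree ≤
        ∑ l, finrank (AlgebraicClosure k) (Adj (Sml p n j) (tw2 (algebraMap k (AlgebraicClosure k)) f)
          (tw2 (algebraMap k (AlgebraicClosure k)) (g l))) := by
  classical
  have hp0 := hp.out.pos
  have hp1 := hp.out.one_lt
  have hn0 : 0 < n := by omega
  intro F₀ hF₀ hk
  have hn' : n ∣ p ^ F₀ - 1 := by
    rw [← hk]
    exact hn
  have hm : ∀ i, dig p F₀ n j (i + F₀) = dig p F₀ n j i := dig_per hp0 hn'
  have hq1 : 1 < p ^ F₀ := Nat.one_lt_pow hF₀.ne' hp1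
  have hrot : ∀ i, n * rot p F₀ (dig p F₀ n j) i = rem p F₀ n j i * (p ^ F₀ - 1) :=
    rot_dig hp0 hF₀ hn'
  have hrotZ : ∀ i, (n : ℤ) * rot p F₀ (dig p F₀ n j) i = rem p F₀ n j i * ((p : ℤ) ^ F₀ - 1) := by
    intro i
    have := congrArg (Nat.cast : ℕ → ℤ) (hrot i)
    push_cast [Nat.cast_sub hq1.le] at this
    exact this
  have hqZ : (0 : ℤ) < (p : ℤ) ^ F₀ - 1 := by
    have : ((1 : ℕ) : ℤ) < ((p ^ F₀ : ℕ) : ℤ) := by exact_mod_cast hq1
    push_cast at this
    omega
  have h𝒟 : ∀ D, Sml p n j D → ∀ i, D * (rot p F₀ (dig p F₀ n j) i : ℤ) < (p : ℤ) ^ F₀ - 1 := by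
    intro D hD i
    have h1 : D * (rem p F₀ n j i : ℤ) < n := hD _
    have h2 : (n : ℤ) * (D * (rot p F₀ (dig p F₀ n j) i : ℤ)) < n * ((p : ℤ) ^ F₀ - 1) := by
      calc (n : ℤ) * (D * (rot p F₀ (dig p F₀ n j) i : ℤ)) =
          D * (n * (rot p F₀ (dig p F₀ n j) i : ℤ)) := by ring
        _ = (D * (rem p F₀ n j i : ℤ)) * ((p : ℤ) ^ F₀ - 1) := by rw [hrotZ]; ring
        _ < n * ((p : ℤ) ^ F₀ - 1) := mul_lt_mul_of_pos_right h1 hqZ
    exact lt_of_mul_lt_mul_left h2 (by positivity)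
  have hrem0 : rem p F₀ n j 0 = j := by
    unfold rem
    rw [mul_zero, pow_zero, one_mul, Nat.mod_eq_of_lt hjn]
  have hM0 : 0 < rot p F₀ (dig p F₀ n j) 0 := by
    have hM := hrot 0
    rw [hrem0] at hM
    rcases Nat.eq_zero_or_pos (rot p F₀ (dig p F₀ n j) 0) with h | h
    · rw [h, mul_zero] at hM
      have : 0 < j * (p ^ F₀ - 1) := Nat.mul_pos hj0 (by omega)
      omega
    · exact h
  have hKp : CharP (AlgebraicClosure k) p :=
    charP_of_injective_algebraMap (algebraMap k (AlgebraicClosure k)).injective p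
  have hSa : Sml p n j a := by
    intro i
    exact_mod_cast hij i
  have hama : ∀ i, a * dig p F₀ n j i < p := by
    intro i
    have := adm_digit hF₀ hm (h𝒟 _ hSa) i
    exact_mod_cast this
  refine natDegree_Del_adj hF₀ hm hM0 (Sml p n j) h𝒟 g E hfg hf hama ?_ ?_ _
  · intro i
    exact_mod_cast hit i
  · intro i
    have h1 : f.natDegree * (p ^ i * j % n) ≤ a * (p ^ i * j % n) := Nat.mul_le_mul_right _ hf
    have h2 := hij i
    have h3 : f.natDegree * (p ^ i * j % n) < n := by omega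
    exact_mod_cast h3

end Pool.Agent.K4H5.KD
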