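import Pool.Agent.K4H5.BC.SysEx
import Mathlib.RingTheory.Localization.Integral
import Mathlib.RingTheory.Polynomial.IntegralNormalization

/-!
The ring of the values of the characters, for a given prime ideal of the ring of algebraic integers.
-/

set_option autoImplicit false
set_option linter.unusedSectionVars false

open Polynomial

namespace Pool.Agent.K4H5.KD

open Pool.Agent.W313.Hyp Pool.Agent.W343.BSD Pool.Agent.Y709 Pool.Agent.K4H5.BC

theorem exists_loc' {K : Type} [Field K] (φ : AI →+* K) :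
    ∃ (R : Type) (_ : CommRing R) (_ : IsDomain R) (π : R →+* K) (ι : R →+* ℂ) (j : AI →+* R),
      Function.Injective ι ∧ (∀ r : R, π r ≠ 0 → IsUnit r) ∧ (∀ a, π (j a) = φ a) ∧
      (∀ a : AI, ι (j a) = (a : ℂ)) ∧ (∀ r : R, ∃ x s : AI, φ s ≠ 0 ∧ r * j s = j x) ∧
      ∀ (z : ℂ) (g : R[X]), g.Monic → eval₂ ι z g = 0 → ∃ r, ι r = z := by
  set P : Ideal AI := RingHom.ker φ with hP
  have hPp : P.IsPrime := RingHom.ker_isPrime φ
  have hle : P.primeCompl ≤ nonZeroDivisors AI := P.primeCompl_le_nonZeroDivisors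
  have hφ : ∀ s : P.primeCompl, IsUnit (φ s) := by
    intro s
    rw [isUnit_iff_ne_zero]
    exact s.2
  have hc : ∀ s : P.primeCompl, IsUnit ((algebraMap AI ℂ) s) := by
    intro s
    rw [isUnit_iff_ne_zero]
    intro h
    apply s.2
    have h1 : (s : AI) = 0 := Subtype.ext h
    rw [h1]
    exact Ideal.zero_mem _
  let π : Localization P.primeCompl →+* K := IsLocalization.lift hφ
  let ι : Localization P.primeCompl →+* ℂ := IsLocalization.lift hc
  let j : AI →+* Localization P.primeCompl := algebraMap _ _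
  have hπj : ∀ a, π (j a) = φ a := fun a => IsLocalization.lift_eq hφ a
  have hιj : ∀ a : AI, ι (j a) = (a : ℂ) := fun a => IsLocalization.lift_eq hc a
  have hju : ∀ s : P.primeCompl, IsUnit (j s) := fun s => IsLocalization.map_units _ s
  refine ⟨Localization P.primeCompl, inferInstance, IsLocalization.isDomain_localization hle, π, ι,
    j, ?_, ?_, hπj, hιj, ?_, ?_⟩
  · rw [injective_iff_map_eq_zero]
    intro r hr
    obtain ⟨⟨a, s⟩, has⟩ := IsLocalization.surj P.primeCompl r
    have h1 : r * j s = j a := has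
    have h2 : j a = 0 := by
      have h3 := congrArg ι h1
      rw [map_mul, hr, zero_mul, hιj] at h3
      have h4 : a = 0 := Subtype.ext h3.symm
      rw [h4, map_zero]
    rw [h2] at h1
    obtain ⟨u, hu⟩ := hju s
    rw [← hu] at h1
    exact (Units.mul_left_eq_zero u).1 h1
  · intro r hr
    obtain ⟨⟨a, s⟩, has⟩ := IsLocalization.surj P.primeCompl r
    have h1 : r * j s = j a := has
    have h2 : φ a ≠ 0 := by
      rw [← hπj, ← h1, map_mul, hπj]
      exact mul_ne_zero hr s.2
    have h3 : IsUnit (j a) := hju ⟨a, h2⟩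
    rw [← h1] at h3
    exact isUnit_of_mul_isUnit_left h3
  · intro r
    obtain ⟨⟨a, s⟩, has⟩ := IsLocalization.surj P.primeCompl r
    exact ⟨a, s, s.2, has⟩
  · intro z g hg h0
    letI : Algebra (Localization P.primeCompl) ℂ := ι.toAlgebra
    haveI : IsScalarTower AI (Localization P.primeCompl) ℂ :=
      IsScalarTower.of_algebraMap_eq fun a => (hιj a).symm
    have hx : IsIntegral (Localization P.primeCompl) z := ⟨g, hg, h0⟩
    obtain ⟨m, hm⟩ := hx.exists_multiple_integral_of_isLocalization P.primeCompl z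
    have hm' : IsIntegral ℤ (m • z) := by
      have : Algebra.IsIntegral ℤ AI := inferInstance
      exact isIntegral_trans _ hm
    have hsm : (m • z : ℂ) = ((m : AI) : ℂ) * z := rfl
    obtain ⟨w, hw⟩ := hju m
    refine ⟨j ⟨m • z, hm'⟩ * (↑(w⁻¹) : Localization P.primeCompl), ?_⟩
    have hm0 : ((m : AI) : ℂ) ≠ 0 := (hc m).ne_zero
    have h1 : ι (↑(w⁻¹) : Localization P.primeCompl) * ((m : AI) : ℂ) = 1 := by
      rw [← hιj, ← map_mul, ← hw, Units.inv_mul, map_one]
    rw [map_mul, hιj]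
    show (m • z : ℂ) * _ = z
    rw [hsm]
    linear_combination z * h1

/-- **the ring of the values of the characters** -/
theorem exists_sys_of (p : ℕ) [hp : Fact p.Prime] (k K : Type) [Field k] [Fintype k] [CharP k p]
    [Field K] [Algebra k K] [IsAlgClosed K] [Algebra.IsAlgebraic k K]
    (φ : AI →+* K) (χ : MulChar k ℂ) {M : ℕ} (hM0 : 0 < M)
    (hφ : ∀ u : k, ∃ x : AI, (x : ℂ) = χ u ∧ φ x = algebraMap k K u ^ M) :
    ∃ (R : Type) (_ : CommRing R) (_ : IsDomain R) (_ : CharZero R) (S : Sys p R K) (ι : R →+* ℂ)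
      (jj : AI →+* R),
      Function.Injective ι ∧ (∀ a, S.π (jj a) = φ a) ∧ (∀ a, ι (jj a) = (a : ℂ)) ∧
      (∀ r : R, ∃ x s : AI, φ s ≠ 0 ∧ r * jj s = jj x) ∧
      (∀ (z : ℂ) (g : R[X]), g.Monic → eval₂ ι z g = 0 → ∃ r, ι r = z) ∧
      ∀ u : k, χ u = ι (S.w (algebraMap k K) u ^ M) := by
  classical
  have hpK : CharP K p := charP_of_injective_algebraMap (algebraMap k K).injective p
  have hcard : 1 < Fintype.card k := Fintype.one_lt_card
  obtain ⟨R, i1, i2, π, ι, jj, hι, hu, hπj, hιj, hfrac, hint⟩ := exists_loc' φ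
  have i3 : CharZero R := ι.charZero
  have hprim : ∀ e : ℕ, 0 < e → ∃ r : R, IsPrimitiveRoot r e := by
    intro e he
    have h1 := Complex.isPrimitiveRoot_exp e he.ne'
    refine ⟨jj ⟨_, h1.isIntegral he⟩, ?_⟩
    refine IsPrimitiveRoot.of_map_of_injective (f := ι) ?_ hι
    rw [hιj]
    exact h1
  obtain ⟨τ, hτ, hτT⟩ := exists_teich (p := p) (k := k) π hprim
  obtain ⟨ζ, hζ⟩ := hprim p hp.out.pos
  let S : Sys p R K := ⟨π, hu, τ, hτ, ζ, hζ⟩
  refine ⟨R, i1, i2, i3, S, ι, jj, hι, hπj, hιj, hfrac, hint, ?_⟩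
  intro u
  by_cases hu0 : u = 0
  · rw [hu0, MulChar.map_zero, S.w_zero, zero_pow hM0.ne', map_zero]
  obtain ⟨x, hx1, hx2⟩ := hφ u
  rw [← hx1, ← hιj]
  congr 1
  have hgne : algebraMap k K u ≠ 0 := (_root_.map_ne_zero _).2 hu0
  refine (isT_uniq (p := p) π (isT_pow (hτT _ hgne) M) ?_ ?_).symm
  · refine ⟨Fintype.card k - 1, by omega, ?_, ?_⟩
    · intro h3
      have h4 : p ∣ Fintype.card k := by
        rw [← CharP.cast_eq_zero_iff k p]
        exact FiniteField.cast_card_eq_zero k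
      have h5 := (Nat.dvd_sub_iff_right hcard.le h4).1 h3
      exact hp.out.one_lt.ne' (Nat.dvd_one.1 h5)
    · apply hι
      rw [map_pow, hιj, hx1, map_one, ← map_pow, FiniteField.pow_card_sub_one_eq_one u hu0, map_one]
  · rw [hπj, hx2, map_pow]
    congr 1
    exact hτ _

end Pool.Agent.K4H5.KD
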